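import Pool.Agent.T9h13.RT.Halo
import Pool.Agent.T9h67.RT.P1
import Pool.Agent.T9h46.RT.P2
import Pool.Agent.T9h46.RT.P3
import Pool.Agent.T9h51.RT.P5

/-!
# Coarse embeddability of the groups of Davis' reflection group trick

Let `Q` be a group which coarsely embeds into a Hilbert space (it need not be exact).  If `Q` acts
on a Coxeter group `W` of countable rank by automorphisms which permute the simple reflections,
with finite stabilisers, then `W ⋊ Q` and all its subgroups coarsely embed into a Hilbert space.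
By Yu's theorem (not in the Lean) a closed aspherical manifold whose fundamental group is of this
kind carries no metric of positive scalar curvature.  Such manifolds are given by Davis' reflection
group trick: the chamber is a compact aspherical manifold with boundary and fundamental group `Q`.

The proof goes through a support theorem for groups over `Q` whose elements have finite supports in
a `Q`-set with finite stabilisers; another case are the halo products `L ⋊ Q` with finite local
groups.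

With helper46 (pieces P2, P3), helper51 (P5), helper67 (P1).
-/

set_option autoImplicit false

namespace Pool.Agent.Results.MP_df705a_gt.ReflectionGroupTrick

open Pool.Agent.N506.EX Pool.Agent.T9h13.RT

universe u

/-- (1) Support theorem.  (2) Coxeter groups and Davis' trick.  (3) Halo products. -/
theorem result :
    (∀ {G Q V : Type u} [Group G] [Group Q] [MulAction Q V] [Countable V],
      (∀ v : V, {q : Q | q • v = v}.Finite) → CoarselyEmbeds Q →
      ∀ (π : G →* Q) (S : G → Finset V), S 1 = ∅ →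
        (∀ s t, ∀ v ∈ S (s * t), v ∈ S s ∨ (π s)⁻¹ • v ∈ S t) →
        (∀ s, ∀ v ∈ S s⁻¹, π s • v ∈ S s) →
        ∀ (H : Type u) [NormedAddCommGroup H] [InnerProductSpace ℝ H] (f : G → H),
          (∀ s, ∃ C : ℝ, ∀ x, ‖f (x * s) - f x‖ ≤ C) →
          (∀ (A : Finset V) (B : Finset Q) (C : ℝ),
            {s : G | S s ⊆ A ∧ π s ∈ B ∧ ∃ x, ‖f (x * s) - f x‖ ≤ C}.Finite) →
          CoarselyEmbeds G) ∧
    (∀ {B W Q Γ : Type u} [Countable B] [Group W] [Group Q] [Group Γ] {M : CoxeterMatrix B}
      (cs : CoxeterSystem M W), CoarselyEmbeds Q → ∀ φ : Q →* MulAut W,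
        (∀ q i, ∃ j, φ q (cs.simple i) = cs.simple j) →
        (∀ i, {q : Q | φ q (cs.simple i) = cs.simple i}.Finite) →
        ∀ e : Γ →* W ⋊[φ] Q, Function.Injective e → CoarselyEmbeds Γ) ∧
    (∀ {L Q V : Type u} [Group L] [Group Q] [MulAction Q V] [Countable V],
      (∀ v : V, {q : Q | q • v = v}.Finite) → CoarselyEmbeds Q →
      ∀ (φ : Q →* MulAut L) (N : Set V → Subgroup L), N ∅ = ⊥ →
        (∀ S T : Set V, S.Finite → T.Finite → N S ⊓ N T = N (S ∩ T)) →
        (∀ (q : Q) (S : Set V), S.Finite → ∀ l ∈ N S, φ q l ∈ N ((fun v => q • v) '' S)) →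
        (∀ l : L, ∃ S : Set V, S.Finite ∧ l ∈ N S) → (∀ S : Set V, S.Finite → Finite (N S)) →
        CoarselyEmbeds (L ⋊[φ] Q)) := by
  refine ⟨?_, ?_, ?_⟩
  · intro G Q V _ _ _ _ hstab hQ π S h1 hmul hinv H _ _ f hf hprop
    exact support Pool.Agent.T9h67.RT.p1c.{u} Pool.Agent.T9h67.RT.p1d.{u}
      Pool.Agent.T9h67.RT.p1e.{u} Pool.Agent.T9h46.RT.p2.{u} Pool.Agent.T9h46.RT.p3.{u}
      hstab hQ π S h1 hmul hinv f hf hprop
  · intro B W Q Γ _ _ _ _ M cs hQ φ hperm hfin e he
    obtain ⟨H, i1, i2, i3, f, hf1, hf2⟩ :=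
      coxeter Pool.Agent.T9h67.RT.p1c.{u} Pool.Agent.T9h67.RT.p1d.{u}
        Pool.Agent.T9h67.RT.p1e.{u} Pool.Agent.T9h46.RT.p2.{u} Pool.Agent.T9h46.RT.p3.{u}
        Pool.Agent.T9h51.RT.p5b.{u} Pool.Agent.T9h51.RT.p5c.{u} cs hQ φ hperm hfin
    refine ⟨H, i1, i2, i3, fun g => f (e g), fun s => ?_, fun C => ?_⟩
    · obtain ⟨C, hC⟩ := hf1 (e s)
      refine ⟨C, fun g => ?_⟩
      simp only [map_mul]
      exact hC _
    · refine Set.Finite.of_finite_image (f := e) ((hf2 C).subset ?_) he.injOn
      rintro _ ⟨s, ⟨g, hg⟩, rfl⟩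
      simp only [map_mul] at hg
      exact ⟨e g, hg⟩
  · intro L Q V _ _ _ _ hstab hQ φ N h0 hinter hequi hex hfin
    exact halo Pool.Agent.T9h67.RT.p1c.{u} Pool.Agent.T9h67.RT.p1d.{u}
      Pool.Agent.T9h67.RT.p1e.{u} Pool.Agent.T9h46.RT.p2.{u} Pool.Agent.T9h46.RT.p3.{u}
      hstab hQ φ N h0 hinter hequi hex hfin

end Pool.Agent.Results.MP_df705a_gt.ReflectionGroupTrick
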