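import Pool.Agent.T9h13.DM.Final
import Pool.Agent.T9h13.DM.Davis

/-!
# The closed manifolds of Davis' reflection group trick dominate tori

Let `U` be a compact oriented `n`-manifold with boundary, with any fundamental group `Q`.  Davis'
reflection group trick triangulates the boundary by a flag complex `L`, takes the dual cells as
mirrors and glues copies of `U` along mirrors, one copy for each element of the right-angled Coxeter
group `W` of `L`; the quotient by a torsion-free subgroup `G` of finite index is a closed manifold
`M`, aspherical if `U` is, which retracts onto `U`.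

Theorem: if `G` is the commutator subgroup of `W`, so that `M` is glued from `2^|V|` copies of `U`,
then `M` has integral classes `a_1, …, a_n` of degree one with `⟨a_1 ∪ … ∪ a_n, [M]⟩ = ±1`, that is
a map of degree one to the torus `T^n`.  For all the other groups `G` there is a map of nonzero
degree of a finite covering of `M` to `T^n`.

Closed oriented manifolds which have a map of nonzero degree to a torus carry no metric of positive
scalar curvature (Schoen-Yau, Gromov-Lawson; not in the Lean).  So no closed aspherical manifold
given by the reflection group trick carries such a metric, whatever the group `Q`.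

The theorem is proved for all manifolds which are tiled by mirrored chambers with a corner: the
chambers may be different, the mirrors need not be cells, the Coxeter group may be any one whose
finite labels are even, and a part of the boundary of the chambers may be left unglued (then the
`a_i` are classes relative to the boundary).  The manifold is given by a finite set `P` of chambers,
their fundamental chains and the gluing of their mirrors, and is described by its cochains.
-/

set_option autoImplicit false

namespace Pool.Agent.Results.MP_df705a_gt.ReflectionTrickDominatesTori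

open Pool.Agent.T9h13.DM

universe u

/-- (1) The sum `∑ sgn(p) c_p` of the chambers is a cycle of `M` relative to the boundary.
(2) `M' → M` is surjective and a covering: it is injective on the set of the chambers around a point.
(3) For a corner `s` there are one-cocycles `a_1, …, a_n` on `M'`, zero on the boundary, whose
product takes on the fundamental cycle of `M'` half the sum of the degrees of the chambers of `M`.
(4) In Davis' reflection group trick the degree of the corner `s` is the coefficient of the simplex
`s` in the fundamental cycle `z` of `L` (so it is `±1` for all the `(n-1)`-simplices of `L`, which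
are corners since `L` is a flag complex).
(5) Each chamber, that is a chain `c` with boundary in the mirrors and the outer boundary, occurs:
there is a tiling by `2^|V|` copies of it (`P = (ℤ/2)^V` is the quotient of the right-angled Coxeter
group by its commutator subgroup), and there are one-cocycles `a_1, …, a_n`, zero on the boundary,
whose product takes on its fundamental cycle the degree of the corner `s`. -/
theorem result {V X P : Type u} [Fintype V] [Nonempty V] [DecidableEq V] [Fintype P] {n : ℕ}
    (hn : 0 < n) (E : Tiling V X P n) :
    (∀ w : P → (Fin n → X) → ℤ, IsCochain E w → VanishesOuter E w → fund E (cob w) = 0) ∧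
    ((∀ p : P, ∃ q : CoverSet E, q.1.1 = p) ∧
      ∀ q : CoverSet E, ∀ x ∈ (E.c q.1.1).support, ∀ j, ∀ l : List V,
        (∀ v ∈ l, v ∈ E.mir (x j)) → l.foldr E.act q.1.1 = q.1.1 →
        l.foldr (cover E).act q = q) ∧
    (∀ s : Fin n → V, IsCorner E s →
      ∃ a : Fin n → CoverSet E → (Fin 2 → X) → ℤ,
        (∀ i, IsCochain (cover E) (a i)) ∧ (∀ i, cob (a i) = 0) ∧
        (∀ i, VanishesOuter (cover E) (a i)) ∧ IsCochain (cover E) (cup a) ∧
        2 * fund (cover E) (cup a) = ∑ p, deg E s p) ∧
    (∀ (z : (Fin n → V) → ℤ) (bary : Finset V → X) (p : P), IsDavis E z bary p →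
      ∀ s, IsCorner E s → deg E s p = z s) ∧
    ∀ (mir : X → Finset V) (outer : Set X) (c : (Fin (n + 1) → X) →₀ ℤ),
      (∀ y, bd c y ≠ 0 → (∃ v, ∀ j, v ∈ mir (y j)) ∨ ∀ j, y j ∈ outer) →
      ∃ E' : Tiling V X (V → ZMod 2) n,
        (E'.mir = mir ∧ E'.outer = outer ∧ (∀ p, E'.c p = c) ∧
          ∀ v p, E'.act v p = p + Pi.single v 1) ∧
        ∀ s : Fin n → V, IsCorner E' s →
          ∃ a : Fin n → (V → ZMod 2) → (Fin 2 → X) → ℤ,
            (∀ i, IsCochain E' (a i)) ∧ (∀ i, cob (a i) = 0) ∧
            (∀ i, VanishesOuter E' (a i)) ∧ IsCochain E' (cup a) ∧
            fund E' (cup a) = deg E' s 0 := by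
  obtain ⟨m, rfl⟩ : ∃ m, n = m + 1 := ⟨n - 1, by omega⟩
  refine ⟨fund_cob E, ⟨?_, cover_inj E⟩, cover_main E,
    fun z bary p h s hs => deg_davis E z bary p h s hs, fun mir outer c h =>
      ⟨trick mir outer c h, ⟨rfl, rfl, fun _ => rfl, fun _ _ => rfl⟩,
        fun s hs => trick_main mir outer c h s hs⟩⟩
  intro p
  obtain ⟨v⟩ := ‹Nonempty V›
  rcases Int.units_eq_one_or (E.sgn p) with h | h
  · refine ⟨⟨(p, 0), ?_⟩, rfl⟩
    rw [h]
    simp [parity]
  · refine ⟨⟨(p, 0 + Pi.single v 1), ?_⟩, rfl⟩
    rw [parity_add_single, h]
    simp [parity]

end Pool.Agent.Results.MP_df705a_gt.ReflectionTrickDominatesTori
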