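import Pool.Agent.T9h13.DS.Link

/-!
# Manifolds cut by a special system of walls dominate tori

Let `M` be a closed oriented `n`-manifold which is cut by finitely many walls into chambers.  The
system of walls is special (in the sense of Haglund and Wise, for the dual cube complex `C`): the
walls are two-sided and embedded, they cross at right angles, a wall meets a chamber in at most one
mirror, and two walls which cross somewhere do so in each chamber which meets both.  The chambers are
arbitrary compact manifolds, with any fundamental groups.  For instance take a compact special
cube complex `C` which is an oriented `n`-manifold outside its vertices, and replace the conical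
neighbourhoods of the vertices by any compact oriented manifolds with the same boundaries; `M` is
aspherical if these manifolds are.

Theorem: suppose that `k` walls meet in a closed face `F` of codimension `k` of one chamber, and
that `g` is a cocycle of degree `n - k` on `M` with `⟨g, F⟩ ≠ 0`.  Then a finite covering `π : M' → M`
has integral classes `a_1, …, a_k` of degree one with `⟨a_1 ∪ … ∪ a_k ∪ π^* g, [M']⟩ ≠ 0`.  In
particular (`k = n`), if one chamber has a corner (`n` walls which meet at a point), a finite
covering of `M` has a map of nonzero degree to the torus `T^n`.

Closed oriented manifolds which have a map of nonzero degree to a torus carry no metric of positive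
scalar curvature (Schoen-Yau, Gromov-Lawson; not in the Lean).  The same is true if `M` is
aspherical, `n ≤ 7` and `k ≥ n - 3`: by the descent of Schoen and Yau there would be a closed oriented
manifold `S` of dimension `n - k` dual to `a_1 ∪ … ∪ a_k` with positive scalar curvature, so its
class in the rational homology of the aspherical `M'` is zero (not in the Lean).

The manifold is given by a finite set `P` of chambers, their fundamental chains and the gluing of
their mirrors, and is described by its cochains.  A part of the boundary of the chambers may be left
unglued, then the `a_i` are classes relative to the boundary.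
-/

set_option autoImplicit false

namespace Pool.Agent.Results.MP_df705a_gt.SpecialWallsDominateTori

open Pool.Agent.T9h13.DM (cob)
open Pool.Agent.T9h13.DS

universe u

/-- (1) The sum `∑ c_p` of the chambers is a cycle of `M` relative to the boundary.
(2) `M' → M` is surjective and a covering: it is injective on the set of the chambers around a point.
(3) Let `s_1, …, s_k` be the walls of a closed face of the chamber `U_p` and `g` a cochain of degree
`m = n - k` on `M` whose value on the face is not zero.  Then there are one-cocycles `a_1, …, a_k` on
`M'`, zero on the boundary, such that the product of `a_1, …, a_k` and the pull-back of `g` is a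
cochain of `M'` which is not zero on the fundamental chain.
(4) If the mirrors of the chamber `U_p` are the dual cells of a triangulation of its boundary with
fundamental cycle `z`, the degree of the corner `s` (the case `k = n`, `g = 1`) is the coefficient of
the simplex `s` in `z`. -/
theorem result {V X P : Type u} [Fintype V] [DecidableEq V] [Fintype P] [DecidableEq P] {n : ℕ}
    (hn : 0 < n) (E : Walls V X P n) :
    (∀ w : P → (Fin n → X) → ℤ, IsCochain E w → VanishesOuter E w → fund E (cob w) = 0) ∧
    ((∀ p : P, ∃ q : CoverSet E, q.1 = p) ∧
      ∀ q : CoverSet E, ∀ x ∈ (E.c q.1).support, ∀ j, ∀ l : List V,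
        (∀ v ∈ l, v ∈ E.mir (x j)) → l.foldr E.act q.1 = q.1 → l.foldr (cover E).act q = q) ∧
    (∀ (k m : ℕ) (h : k + m = n), 0 < k → ∀ (p : P) (s : Fin k → V)
      (g : P → (Fin (m + 1) → X) → ℤ), IsCochain E g → IsCorner E s p → deg E h s g p ≠ 0 →
      ∃ a : Fin k → CoverSet E → (Fin 2 → X) → ℤ,
        (∀ i, IsCochain (cover E) (a i)) ∧ (∀ i, cob (a i) = 0) ∧
        (∀ i, VanishesOuter (cover E) (a i)) ∧
        IsCochain (cover E) (cupg h a fun q => g q.1) ∧
        fund (cover E) (cupg h a fun q => g q.1) ≠ 0) ∧
    ∀ (z : (Fin n → V) → ℤ) (bary : Finset V → X) (p : P), IsLink E z bary p →
      ∀ s, IsCorner E s p → deg E (Nat.add_zero n) s (fun _ _ => 1) p = z s := by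
  obtain ⟨m, rfl⟩ : ∃ m, n = m + 1 := ⟨n - 1, by omega⟩
  exact ⟨fund_cob E hn, ⟨fun p => ⟨(p, fun _ => 1), rfl⟩, cover_inj E⟩,
    fun k m h hk p s g hg hs hdeg => main E hk h s g p hg hs hdeg,
    fun z bary p h s hs => deg_link E z bary p h s hs⟩

end Pool.Agent.Results.MP_df705a_gt.SpecialWallsDominateTori
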